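import Pool.Agent.Y240.KF.Stm

set_option autoImplicit false
set_option linter.unusedSectionVars false

/-!
Restriction of random graphs and two rounds of exposure (job KF-VTX).
-/

namespace Pool.Agent.Y98.KF

open Finset
open scoped Classical
open Pool.Agent.TH965 Pool.Agent.TH965.Emb Pool.Agent.TH965.Spread
open Pool.Agent.TH948.KK
open Pool.Agent.Y240.KF

/-- `StGv` -/
theorem stGv : StGv := by
  intro n p P
  rw [gnp_eq_exs]
  rfl

lemma exs_congr' {X : Type} (s : Finset X) (p : ℝ) {f g : Finset X → ℝ}
    (h : ∀ W, W ⊆ s → f W = g W) : exs s p f = exs s p g := by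
  unfold exs
  refine Finset.sum_congr rfl (fun W hW => ?_)
  rw [h W (Finset.mem_powerset.mp hW)]

/-- The restriction lemma. -/
theorem exs_restrict {X Y : Type} (f : X → Y) (hf : Function.Injective f) (p : ℝ)
    (t : Finset Y) : ∀ (s : Finset X) (F : Finset X → ℝ) (R : Finset Y → Finset X),
    (∀ x ∈ s, f x ∈ t) → (∀ W x, x ∈ R W ↔ x ∈ s ∧ f x ∈ W) →
    exs t p (fun W => F (R W)) = exs s p F := by
  induction t using Finset.induction_on with
  | empty =>
    intro s F R hst hR
    have hs : s = ∅ := Finset.eq_empty_of_forall_notMem (fun x hx => by simpa using hst x hx)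
    subst hs
    have h1 : R ∅ = ∅ := Finset.eq_empty_of_forall_notMem (fun x hx => by
      simpa using (hR ∅ x).mp hx)
    rw [exs_empty, exs_empty, h1]
  | insert y t hy ih =>
    intro s F R hst hR
    rw [exs_insert t y hy]
    by_cases hyi : ∃ x ∈ s, f x = y
    · obtain ⟨x, hxs, rfl⟩ := hyi
      have hs : s = insert x (s.erase x) := (Finset.insert_erase hxs).symm
      have hx' : x ∉ s.erase x := Finset.notMem_erase x s
      have hst' : ∀ z ∈ s.erase x, f z ∈ t := by
        intro z hz
        rw [Finset.mem_erase] at hz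
        have := hst z hz.2
        rw [Finset.mem_insert] at this
        rcases this with h | h
        · exact absurd (hf h) hz.1
        · exact h
      let R' : Finset Y → Finset X := fun W => (s.erase x).filter (fun z => f z ∈ W)
      have hR' : ∀ W z, z ∈ R' W ↔ z ∈ s.erase x ∧ f z ∈ W := fun W z => Finset.mem_filter
      have e1 : exs t p (fun W => F (R W)) = exs (s.erase x) p F := by
        rw [← ih (s.erase x) F R' hst' hR']
        refine exs_congr' t p (fun W hW => ?_)
        congr 1
        ext z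
        rw [hR, hR', Finset.mem_erase]
        constructor
        · rintro ⟨h1, h2⟩
          refine ⟨⟨?_, h1⟩, h2⟩
          rintro rfl
          exact hy (hW h2)
        · rintro ⟨⟨_, h1⟩, h2⟩
          exact ⟨h1, h2⟩
      have e2 : exs t p (fun W => F (R (insert (f x) W))) =
          exs (s.erase x) p (fun W => F (insert x W)) := by
        rw [← ih (s.erase x) (fun W => F (insert x W)) R' hst' hR']
        refine exs_congr' t p (fun W hW => ?_)
        congr 1
        ext z
        rw [hR, Finset.mem_insert, Finset.mem_insert, hR', Finset.mem_erase]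
        constructor
        · rintro ⟨h1, h2⟩
          by_cases hzx : z = x
          · exact Or.inl hzx
          · rcases h2 with h2 | h2
            · exact absurd (hf h2) hzx
            · exact Or.inr ⟨⟨hzx, h1⟩, h2⟩
        · rintro (rfl | ⟨⟨_, h1⟩, h2⟩)
          · exact ⟨hxs, Or.inl rfl⟩
          · exact ⟨h1, Or.inr h2⟩
      rw [e1, e2]
      conv_rhs => rw [hs]
      rw [exs_insert (s.erase x) x hx']
    · simp only [not_exists, not_and] at hyi
      have hst' : ∀ z ∈ s, f z ∈ t := by
        intro z hz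
        have := hst z hz
        rw [Finset.mem_insert] at this
        rcases this with h | h
        · exact absurd h (hyi z hz)
        · exact h
      have e1 := ih s F R hst' hR
      have e2 : exs t p (fun W => F (R (insert y W))) = exs s p F := by
        rw [← e1]
        refine exs_congr' t p (fun W _ => ?_)
        congr 1
        ext z
        rw [hR, hR, Finset.mem_insert]
        constructor
        · rintro ⟨h1, h2⟩
          rcases h2 with h2 | h2
          · exact absurd h2 (hyi z h1)
          · exact ⟨h1, h2⟩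
        · rintro ⟨h1, h2⟩
          exact ⟨h1, Or.inr h2⟩
      rw [e1, e2]
      ring

section graph

variable {U V α : Type} [Fintype U] [Fintype V] [Fintype α]

/-- The pulled back edge set. -/
noncomputable def pb (φ : U → V) (W : Finset (Sym2 V)) : Finset (Sym2 U) :=
  (eF (⊤ : SimpleGraph U)).filter (fun e => Sym2.map φ e ∈ W)

theorem mem_pb (φ : U → V) (W : Finset (Sym2 V)) (e : Sym2 U) :
    e ∈ pb φ W ↔ e ∈ eF (⊤ : SimpleGraph U) ∧ Sym2.map φ e ∈ W := Finset.mem_filter

theorem map_mem_eF {φ : U → V} (hφ : Function.Injective φ) (e : Sym2 U)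
    (he : e ∈ eF (⊤ : SimpleGraph U)) : Sym2.map φ e ∈ eF (⊤ : SimpleGraph V) := by
  rw [mem_eF] at he ⊢
  induction e using Sym2.ind with
  | _ a b =>
    rw [Sym2.map_mk, SimpleGraph.mem_edgeSet, SimpleGraph.top_adj]
    rw [SimpleGraph.mem_edgeSet, SimpleGraph.top_adj] at he
    exact fun h => he (hφ h)

theorem exs_pb {φ : U → V} (hφ : Function.Injective φ) (p : ℝ) (F : Finset (Sym2 U) → ℝ) :
    exs (eF (⊤ : SimpleGraph V)) p (fun W => F (pb φ W)) = exs (eF (⊤ : SimpleGraph U)) p F :=
  exs_restrict (Sym2.map φ) (Sym2.map.injective hφ) p _ _ F (pb φ)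
    (fun e he => map_mem_eF hφ e he) (fun W e => mem_pb φ W e)

/-- A copy in the pulled back graph, as a map into `V`. -/
theorem copy_pb {φ : U → V} (hφ : Function.Injective φ) (W : Finset (Sym2 V)) (A : SimpleGraph α)
    (h : A.IsContained (SimpleGraph.fromEdgeSet (pb φ W : Set (Sym2 U)))) :
    ∃ g : α → U, Function.Injective g ∧ ∀ a b, A.Adj a b →
      (SimpleGraph.fromEdgeSet (W : Set (Sym2 V))).Adj (φ (g a)) (φ (g b)) := by
  obtain ⟨c⟩ := h
  refine ⟨c.toHom, c.injective', fun a b hab => ?_⟩
  have h1 := c.toHom.map_adj hab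
  rw [SimpleGraph.fromEdgeSet_adj] at h1 ⊢
  refine ⟨?_, fun h2 => h1.2 (hφ h2)⟩
  have h2 : s(c.toHom a, c.toHom b) ∈ pb φ W := by simpa using h1.1
  have h3 := ((mem_pb φ W _).mp h2).2
  simpa using h3

theorem isContained_of {A : SimpleGraph α} {G : SimpleGraph V} (g : α → V)
    (hg : Function.Injective g) (h : ∀ a b, A.Adj a b → G.Adj (g a) (g b)) :
    A.IsContained G := ⟨⟨⟨g, fun {a b} hab => h a b hab⟩, hg⟩⟩

end graph

/-- `StMonoV` -/
theorem stMonoV : StMonoV := by
  intro U V α _ _ _ A hcard p hp0 hp1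
  obtain ⟨φ⟩ := Function.Embedding.nonempty_of_card_le hcard
  unfold gv
  rw [← exs_pb φ.injective p]
  refine exs_mono _ hp0 hp1 (fun W _ => ind_mono ?_)
  intro h
  obtain ⟨g, hg, hadj⟩ := copy_pb φ.injective W A h
  exact isContained_of (fun a => φ (g a)) (φ.injective.comp hg) hadj

theorem gv_nonneg {V : Type} [Fintype V] {p : ℝ} (hp0 : 0 ≤ p) (hp1 : p ≤ 1)
    (P : SimpleGraph V → Prop) : 0 ≤ gv V p P := by
  unfold gv
  have := exs_mono (eF (⊤ : SimpleGraph V)) hp0 hp1 (f := fun _ => 0)
    (g := fun W => ind (P (SimpleGraph.fromEdgeSet (W : Set (Sym2 V)))))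
    (fun W _ => ind_nonneg _)
  rwa [exs_const] at this

theorem gv_le_one {V : Type} [Fintype V] {p : ℝ} (hp0 : 0 ≤ p) (hp1 : p ≤ 1)
    (P : SimpleGraph V → Prop) : gv V p P ≤ 1 := by
  unfold gv
  have := exs_mono (eF (⊤ : SimpleGraph V)) hp0 hp1
    (f := fun W => ind (P (SimpleGraph.fromEdgeSet (W : Set (Sym2 V)))))
    (g := fun _ => 1) (fun W _ => ind_le_one _)
  rwa [exs_const] at this

/-- An injection of `β` that avoids the range of an injection. -/
theorem exists_avoid {α β V : Type} [Fintype α] [Fintype β] [Fintype V]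
    (hc : Fintype.card α + Fintype.card β = Fintype.card V) (f : α → V)
    (hf : Function.Injective f) :
    ∃ φ : β → V, Function.Injective φ ∧ ∀ a b, f a ≠ φ b := by
  have h1 : Fintype.card β ≤ Fintype.card {v : V // v ∉ Set.range f} := by
    have h2 := Fintype.card_subtype_compl (fun v : V => v ∈ Set.range f)
    have h3 : Fintype.card {v : V // v ∈ Set.range f} = Fintype.card α :=
      (Fintype.card_congr (Equiv.ofInjective f hf)).symm
    rw [h2, h3]
    omega
  obtain ⟨e⟩ := Function.Embedding.nonempty_of_card_le h1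
  refine ⟨fun b => (e b).1, fun b b' h => e.injective (Subtype.ext h), fun a b h => ?_⟩
  exact (e b).2 ⟨a, h⟩

/-- `StTwo` -/
theorem stTwo : StTwo := by
  intro α β V _ _ _ A B hc p₁ p₂ δ₁ δ₂ hp10 hp11 hp20 hp21 hδ1 hδ2 h1 h2
  set c := gv β p₂ (fun G => B.IsContained G) with hcdef
  have hc1 : c ≤ 1 := gv_le_one hp20 hp21 _
  have hc0 : 0 ≤ c := gv_nonneg hp20 hp21 _
  set q := gv V p₁ (fun G => A.IsContained G) with hqdef
  have hq1 : q ≤ 1 := gv_le_one hp10 hp11 _
  have hkey : q * c ≤ gv V (p₁ + p₂ - p₁ * p₂) (fun G => (A ⊕g B).IsContained G) := by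
    unfold gv
    rw [exs_union]
    have e1 : q * c = exs (eF (⊤ : SimpleGraph V)) p₁ (fun W =>
        c * ind (A.IsContained (SimpleGraph.fromEdgeSet (W : Set (Sym2 V))))) := by
      rw [exs_mul_left, hqdef]
      unfold gv
      ring
    rw [e1]
    refine exs_mono _ hp10 hp11 (fun W₁ _ => ?_)
    by_cases hA : A.IsContained (SimpleGraph.fromEdgeSet (W₁ : Set (Sym2 V)))
    · rw [ind_true hA, mul_one]
      obtain ⟨cA⟩ := hA
      obtain ⟨φ, hφ, hav⟩ := exists_avoid hc cA.toHom cA.injective'
      have e2 : c = exs (eF (⊤ : SimpleGraph V)) p₂ (fun W =>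
          ind (B.IsContained (SimpleGraph.fromEdgeSet (pb φ W : Set (Sym2 β))))) := by
        rw [hcdef]
        unfold gv
        rw [← exs_pb hφ p₂]
      rw [e2]
      refine exs_mono _ hp20 hp21 (fun W₂ _ => ind_mono ?_)
      intro hB
      obtain ⟨g, hg, hadj⟩ := copy_pb hφ W₂ B hB
      refine isContained_of (Sum.elim cA.toHom (fun b => φ (g b))) ?_ ?_
      · rintro (a | b) (a' | b') h
        · exact congrArg _ (cA.injective' h)
        · exact absurd h (hav _ _)
        · exact absurd h.symm (hav _ _)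
        · exact congrArg _ (hg (hφ h))
      · rintro (a | b) (a' | b') h
        · have h3 := cA.toHom.map_adj (SimpleGraph.sum_adj_inl.mp h)
          rw [SimpleGraph.fromEdgeSet_adj] at h3 ⊢
          refine ⟨?_, h3.2⟩
          rw [Finset.coe_union]
          exact Or.inl h3.1
        · simp at h
        · simp at h
        · have h3 := hadj b b' (SimpleGraph.sum_adj_inr.mp h)
          rw [SimpleGraph.fromEdgeSet_adj] at h3 ⊢
          refine ⟨?_, h3.2⟩
          rw [Finset.coe_union]
          exact Or.inr h3.1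
    · rw [ind_false hA, mul_zero]
      have := exs_mono (eF (⊤ : SimpleGraph V)) hp20 hp21 (f := fun _ => 0)
        (g := fun W₂ => ind ((A ⊕g B).IsContained
          (SimpleGraph.fromEdgeSet ((W₁ ∪ W₂ : Finset (Sym2 V)) : Set (Sym2 V)))))
        (fun W _ => ind_nonneg _)
      rwa [exs_const] at this
  have h3 : 0 ≤ (1 - q) * (1 - c) := mul_nonneg (by linarith) (by linarith)
  nlinarith

end Pool.Agent.Y98.KF
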